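import Pool.Agent.H21.Axial2

namespace Pool.Agent.Results.MP_8db76d_al.MonsterCounter

open Pool.Agent.H21.Axial

theorem result : ∃ (V : Type) (_ : AddCommGroup V) (_ : Module ℚ V) (m : V →ₗ[ℚ] V →ₗ[ℚ] V)
    (X : Set V), FiniteDimensional ℚ V ∧ X.Finite ∧ (∀ x y, m x y = m y x) ∧
    (∀ a ∈ X, IsPrimitiveAxis m {1, 0, 1/4, 1/2} (monster (1/4) (1/2)) a) ∧ Generates m X ∧
    Indecomposable m ∧ SumIndecomposable m ∧ ¬ (nonAnn m X).Preconnected :=
  ⟨V, inferInstance, inferInstance, mV, XX, inferInstance,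
    (Set.finite_range _).union (Set.finite_range _), mv_comm, axes, gen, indec, sumInd, notConn⟩

end Pool.Agent.Results.MP_8db76d_al.MonsterCounter
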